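import Pool.Agent.Work.MP_2738db_nt_ZZ.Interface
import Pool.Agent.Work.MP_2738db_nt_V.Mert
import Pool.Agent.Work.MP_b0c12c_nt_helper41.Mert

/-!
Block FEW of the THIRD BASE theorem: few integers up to `N` have at most one prime factor above
`exp ((log N) ^ (1 - η))`.
-/

set_option autoImplicit false

namespace Pool.Agent.Work.MP_2738db_nt_ZZ.helper66

open Finset Pool.Agent.Work.MP_2738db_nt_ZZ Pool.Agent.Work.MP_2738db_nt_V

/-- the Euler product bound -/
theorem sum_inv_le_exp (P S : Finset ℕ) (hP : ∀ p ∈ P, p.Prime)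
    (hS : ∀ m ∈ S, m ≠ 0 ∧ ∀ p : ℕ, p.Prime → p ∣ m → p ∈ P) :
    ∑ m ∈ S, 1 / (m : ℝ) ≤ Real.exp (∑ p ∈ P, 1 / (p : ℝ) + 2) := by
  classical
  let f : ℕ →* ℝ :=
    { toFun := fun n => 1 / (n : ℝ)
      map_one' := by simp
      map_mul' := fun a b => by push_cast; rw [one_div, one_div, one_div, mul_inv] }
  have hf : ∀ n : ℕ, f n = 1 / (n : ℝ) := fun _ => rfl
  have h1 := (EulerProduct.summable_and_hasSum_factoredNumbers_prod_filter_prime_geometric
    (f := f) (fun {p} hp => by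
      rw [hf, Real.norm_of_nonneg (by positivity), div_lt_one (by exact_mod_cast hp.pos)]
      exact_mod_cast hp.one_lt) P).2
  have h2 : P.filter (fun p => p.Prime) = P := Finset.filter_true_of_mem hP
  rw [h2] at h1
  have h3 : HasSum (Set.indicator (Nat.factoredNumbers P) (fun m : ℕ => f m))
      (∏ p ∈ P, (1 - f p)⁻¹) := (hasSum_subtype_iff_indicator).mp h1
  have h4 := sum_le_hasSum S (fun i _ => by
    apply Set.indicator_nonneg
    intro n _
    rw [hf]
    positivity) h3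
  have h5 : ∑ m ∈ S, Set.indicator (Nat.factoredNumbers P) (fun m : ℕ => f m) m =
      ∑ m ∈ S, 1 / (m : ℝ) := by
    apply Finset.sum_congr rfl
    intro m hm
    rw [Set.indicator_of_mem, hf]
    rw [Nat.mem_factoredNumbers']
    exact (hS m hm).2
  rw [h5] at h4
  refine h4.trans ?_
  have h6 : ∏ p ∈ P, (1 - f p)⁻¹ ≤
      ∏ p ∈ P, Real.exp (1 / (p : ℝ) + 2 * ((p : ℝ) ^ 2)⁻¹) := by
    apply Finset.prod_le_prod
    · intro p hp
      have : (1 : ℝ) < p := by exact_mod_cast (hP p hp).one_lt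
      have h2 : 1 / (p : ℝ) < 1 := by rw [div_lt_one (by linarith)]; exact this
      rw [hf]
      exact (inv_pos.mpr (by linarith)).le
    · intro p hp
      have h2p : (2 : ℝ) ≤ p := by exact_mod_cast (hP p hp).two_le
      rw [hf]
      have h3 : (1 - 1 / (p : ℝ))⁻¹ = 1 / ((p : ℝ) - 1) + 1 := by
        have h5 : (p : ℝ) - 1 ≠ 0 := by linarith
        have h6 : (p : ℝ) ≠ 0 := by linarith
        have h7 : 1 - 1 / (p : ℝ) = ((p : ℝ) - 1) / p := by
          rw [sub_div, div_self h6]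
        rw [h7, inv_div, div_add_one h5]
        congr 1
        ring
      rw [h3]
      refine (Real.add_one_le_exp _).trans (Real.exp_le_exp.mpr ?_)
      have h4 : 1 / (p : ℝ) + 2 * ((p : ℝ) ^ 2)⁻¹ - 1 / ((p : ℝ) - 1) =
          ((p : ℝ) - 2) / ((p : ℝ) ^ 2 * ((p : ℝ) - 1)) := by
        have h5 : (p : ℝ) - 1 ≠ 0 := by linarith
        have h6 : (p : ℝ) ≠ 0 := by linarith
        field_simp
        ring
      have h5 : 0 ≤ ((p : ℝ) - 2) / ((p : ℝ) ^ 2 * ((p : ℝ) - 1)) := by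
        apply div_nonneg (by linarith)
        apply mul_nonneg (by positivity) (by linarith)
      linarith
  refine h6.trans ?_
  rw [← Real.exp_sum, Finset.sum_add_distrib]
  apply Real.exp_le_exp.mpr
  have h7 : ∑ p ∈ P, 2 * ((p : ℝ) ^ 2)⁻¹ ≤ 2 := by
    rw [← Finset.mul_sum]
    have h3 : ∑ p ∈ P, ((p : ℝ) ^ 2)⁻¹ ≤ ∑ p ∈ Ioc 1 (P.sup id), ((p : ℝ) ^ 2)⁻¹ := by
      apply Finset.sum_le_sum_of_subset_of_nonneg
      · intro p hp
        rw [mem_Ioc]
        exact ⟨(hP p hp).one_lt, Finset.le_sup (f := id) hp⟩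
      intro i _ _
      positivity
    have h4 : ∑ p ∈ Ioc 1 (P.sup id), ((p : ℝ) ^ 2)⁻¹ ≤ 1 := by
      rcases Nat.lt_or_ge (P.sup id) 1 with h | h
      · rw [Finset.Ioc_eq_empty (by omega), Finset.sum_empty]
        norm_num
      · refine (sum_Ioc_inv_sq_le_sub one_ne_zero h).trans ?_
        have : (0 : ℝ) ≤ ((P.sup id : ℕ) : ℝ)⁻¹ := by positivity
        push_cast
        linarith
    linarith
  linarith

theorem ls_mono (Y : ℕ) {s c : ℕ} (hc : c ≠ 0) (h : s ∣ c) : ls Y s ≤ ls Y c := by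
  unfold ls
  apply Finset.sum_le_sum
  intro p hp
  rw [mem_filter] at hp
  have h1 : s.factorization p ≤ c.factorization p :=
    (Nat.factorization_le_iff_dvd (ne_zero_of_dvd_ne_zero hc h) hc).2 h p
  apply mul_le_mul_of_nonneg_right (by exact_mod_cast h1)
  exact Real.log_nonneg (by exact_mod_cast hp.2.one_lt.le)

theorem ls_eq_log {Y s : ℕ} (hs : ∀ p : ℕ, p.Prime → p ∣ s → p ≤ Y) :
    ls Y s = Real.log s := by
  rw [Real.log_nat_eq_sum_factorization, Finsupp.sum]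
  unfold ls
  symm
  apply Finset.sum_subset
  · intro p hp
    rw [Nat.support_factorization, Nat.mem_primeFactors] at hp
    rw [mem_filter, mem_Ioc]
    exact ⟨⟨hp.1.pos, hs p hp.1 hp.2.1⟩, hp.1⟩
  · intro p _ hp
    rw [Finsupp.notMem_support_iff] at hp
    rw [hp]
    simp

/-- an integer with at most one prime factor above `Y` -/
theorem cover {Y N c : ℕ} (hc : 1 ≤ c) (hcN : c ≤ N)
    (h : ∀ r₁ r₂ : ℕ, r₁.Prime → r₂.Prime → Y < r₁ → r₁ < r₂ → ¬ r₁ * r₂ ∣ c) :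
    Real.log N / 2 ≤ ls Y c ∨ c ^ 2 ≤ N ∨ (∃ r : ℕ, r.Prime ∧ Y < r ∧ r ^ 2 ∣ c) ∨
      ∃ s r : ℕ, c = s * r ∧ r.Prime ∧ 1 ≤ s ∧ s ^ 2 ≤ N ∧
        ∀ p : ℕ, p.Prime → p ∣ s → p ≤ Y := by
  by_contra hcon
  push Not at hcon
  obtain ⟨h1, h2, h3, h4⟩ := hcon
  have key : ∀ s : ℕ, 1 ≤ s → s ∣ c → (∀ p : ℕ, p.Prime → p ∣ s → p ≤ Y) → s ^ 2 ≤ N := by
    intro s hs hsc hsY
    by_contra hN
    push Not at hN
    have h5 := ls_mono Y (by omega : c ≠ 0) hsc
    rw [ls_eq_log hsY] at h5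
    have h6 : Real.log N ≤ 2 * Real.log s := by
      have h7 : (N : ℝ) ≤ (s : ℝ) ^ 2 := by exact_mod_cast hN.le
      have h8 := Real.log_le_log (by exact_mod_cast (by omega : 0 < N)) h7
      rw [Real.log_pow] at h8
      push_cast at h8
      exact h8
    linarith
  by_cases hr : ∃ r : ℕ, r.Prime ∧ Y < r ∧ r ∣ c
  · obtain ⟨r, hr, hYr, hrc⟩ := hr
    obtain ⟨s, hs⟩ := hrc
    have hs1 : 1 ≤ s := by
      rcases Nat.eq_zero_or_pos s with h0 | h0
      · subst h0; omega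
      · exact h0
    have hrs : ¬ r ∣ s := by
      rintro ⟨t, ht⟩
      apply h3 r hr hYr
      rw [hs, ht]
      exact ⟨t, by ring⟩
    have hsY : ∀ p : ℕ, p.Prime → p ∣ s → p ≤ Y := by
      intro p hp hps
      by_contra hpY
      push Not at hpY
      have hne : p ≠ r := fun h => hrs (h ▸ hps)
      have hdiv : p * r ∣ c := by
        rw [hs, mul_comm r s]
        exact mul_dvd_mul_right hps r
      rcases lt_or_gt_of_ne hne with hlt | hlt
      · exact h p r hp hr hpY hlt hdiv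
      · exact h r p hr hp hYr hlt (by rw [mul_comm]; exact hdiv)
    have hsc : s ∣ c := ⟨r, by rw [hs]; ring⟩
    obtain ⟨p, hp, hps, hpY⟩ := h4 s r (by rw [hs]; ring) hr hs1 (key s hs1 hsc hsY)
    exact absurd (hsY p hp hps) (by omega)
  · push Not at hr
    have := key c hc dvd_rfl (fun p hp hpc => by
      by_contra hpY
      exact hr p hp (by omega) hpc)
    omega

theorem pi_le {x : ℝ} (hx : 1 < x) : (Nat.primeCounting ⌊x⌋₊ : ℝ) ≤ 5 * x / Real.log x := by
  have h1 := Chebyshev.pi_le_log4_mul_div hx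
  have hx0 : 0 < x := by linarith
  have hlog : 0 < Real.log x := Real.log_pos hx
  have h2 : Real.log (Real.sqrt x) = Real.log x / 2 := Real.log_sqrt hx0.le
  have hs : 0 < Real.sqrt x := Real.sqrt_pos.2 hx0
  have h3 : Real.log (Real.sqrt x) ≤ Real.sqrt x := (Real.log_le_self hs.le)
  have h4 : Real.sqrt x ≤ 2 * x / Real.log x := by
    rw [le_div_iff₀ hlog]
    have h5 : Real.sqrt x * Real.sqrt x = x := Real.mul_self_sqrt hx0.le
    nlinarith
  have h5 : Real.log 4 ≤ 3 / 2 := by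
    have := Real.log_two_lt_d9
    rw [(by norm_num : (4 : ℝ) = 2 ^ 2), Real.log_pow]
    push_cast
    linarith
  rw [h2] at h1
  have h6 : Real.log 4 * x / (Real.log x / 2) ≤ 3 * x / Real.log x := by
    rw [div_le_div_iff₀ (by positivity) hlog]
    nlinarith [mul_pos hx0 hlog]
  have h7 : 5 * x / Real.log x = 3 * x / Real.log x + 2 * x / Real.log x := by
    rw [← add_div]; congr 1; ring
  linarith

theorem card_sq_le (Y N : ℕ) (hY : 1 ≤ Y) :
    (((((Ioc Y N).filter Nat.Prime).biUnion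
      (fun r => (Icc 1 N).filter (fun c => r ^ 2 ∣ c))).card : ℕ) : ℝ) ≤ N / Y := by
  have h1 : (((((Ioc Y N).filter Nat.Prime).biUnion
      (fun r => (Icc 1 N).filter (fun c => r ^ 2 ∣ c))).card : ℕ) : ℝ) ≤
      ∑ r ∈ (Ioc Y N).filter Nat.Prime, (N : ℝ) * ((r : ℝ) ^ 2)⁻¹ := by
    refine (Nat.cast_le.2 Finset.card_biUnion_le).trans ?_
    push_cast
    apply Finset.sum_le_sum
    intro r hr
    have h2 : ((Icc 1 N).filter (fun c => r ^ 2 ∣ c)).card = N / r ^ 2 := by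
      rw [← Nat.Ioc_filter_dvd_card_eq_div]
      congr 1
    rw [h2]
    refine Nat.cast_div_le.trans (le_of_eq ?_)
    push_cast
    rw [div_eq_mul_inv]
  refine h1.trans ?_
  rw [← Finset.mul_sum, div_eq_mul_inv]
  apply mul_le_mul_of_nonneg_left _ (Nat.cast_nonneg N)
  have h3 : ∑ r ∈ (Ioc Y N).filter Nat.Prime, ((r : ℝ) ^ 2)⁻¹ ≤
      ∑ r ∈ Ioc Y N, ((r : ℝ) ^ 2)⁻¹ := by
    apply Finset.sum_le_sum_of_subset_of_nonneg (Finset.filter_subset _ _)
    intro i _ _
    positivity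
  refine h3.trans ?_
  rcases Nat.lt_or_ge N Y with h | h
  · rw [Finset.Ioc_eq_empty (by omega), Finset.sum_empty]
    positivity
  · refine (sum_Ioc_inv_sq_le_sub (by omega) h).trans ?_
    have : (0 : ℝ) ≤ ((N : ℕ) : ℝ)⁻¹ := by positivity
    linarith

open Classical in
theorem card_ls_le (Y N : ℕ) (hY : 1 ≤ Y) {t : ℝ} (ht : 0 < t) :
    ((((Icc 1 N).filter (fun c => t ≤ ls Y c)).card : ℕ) : ℝ) ≤
      2 * N * (Real.log Y + 1.4) / t := by
  refine le_trans (le_of_eq ?_) (cnt_ls_ge Y N hY ht)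
  unfold cnt
  rw [Finset.card_filter]
  push_cast
  apply Finset.sum_congr rfl
  intro a _
  rw [Set.indicator_apply]
  rfl

open Classical in
/-- the smooth integers up to the square root -/
noncomputable def SS (Y N : ℕ) : Finset ℕ :=
  (Icc 1 N.sqrt).filter (fun s => ∀ p : ℕ, p.Prime → p ∣ s → p ≤ Y)

theorem mem_SS {Y N s : ℕ} : s ∈ SS Y N ↔ (1 ≤ s ∧ s ^ 2 ≤ N) ∧
    ∀ p : ℕ, p.Prime → p ∣ s → p ≤ Y := by
  classical
  unfold SS
  rw [mem_filter, mem_Icc, Nat.le_sqrt']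

theorem card_SS_le (Y N : ℕ) (hN : 3 ≤ N) :
    (((((SS Y N).sigma (fun s => (Icc 1 (N / s)).filter Nat.Prime)).image
      (fun x => x.1 * x.2)).card : ℕ) : ℝ) ≤
      10 * N / Real.log N * ∑ s ∈ SS Y N, 1 / (s : ℝ) := by
  refine (Nat.cast_le.2 Finset.card_image_le).trans ?_
  rw [Finset.card_sigma]
  push_cast
  rw [Finset.mul_sum]
  apply Finset.sum_le_sum
  intro s hs
  rw [mem_SS] at hs
  have hN0 : (0 : ℝ) < N := by exact_mod_cast (by omega : 0 < N)
  have hs0 : (0 : ℝ) < s := by exact_mod_cast hs.1.1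
  have hs2 : (s : ℝ) ^ 2 ≤ N := by exact_mod_cast hs.1.2
  have hL : 0 < Real.log N := Real.log_pos (by exact_mod_cast (by omega : 1 < N))
  have hx : 1 < (N : ℝ) / s := by
    rw [lt_div_iff₀ hs0, one_mul]
    have : s < N := by
      rcases Nat.lt_or_ge s N with h | h
      · exact h
      · exfalso
        have := hs.1.2
        nlinarith
    exact_mod_cast this
  have h1 : (((Icc 1 (N / s)).filter Nat.Prime).card : ℝ) ≤
      (Nat.primeCounting ⌊(N : ℝ) / s⌋₊ : ℝ) := by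
    rw [Nat.floor_div_natCast, Nat.floor_natCast, Nat.primeCounting, Nat.primeCounting',
      Nat.count_eq_card_filter_range]
    apply Nat.cast_le.2
    apply Finset.card_le_card
    apply Finset.filter_subset_filter
    intro a ha
    rw [mem_Icc] at ha
    rw [mem_range]
    omega
  refine (h1.trans (pi_le hx)).trans ?_
  have h2 : Real.log N / 2 ≤ Real.log ((N : ℝ) / s) := by
    rw [Real.log_div hN0.ne' hs0.ne']
    have h3 := Real.log_le_log (by positivity) hs2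
    rw [Real.log_pow] at h3
    push_cast at h3
    linarith
  have h4 : 5 * ((N : ℝ) / s) / Real.log ((N : ℝ) / s) ≤ 5 * ((N : ℝ) / s) / (Real.log N / 2) := by
    apply div_le_div_of_nonneg_left (by positivity) (by positivity) h2
  refine h4.trans (le_of_eq ?_)
  field_simp
  norm_num

theorem sum_SS_le : ∃ C : ℝ, 0 < C ∧ ∀ Y N : ℕ, 2 ≤ Y →
    ∑ s ∈ SS Y N, 1 / (s : ℝ) ≤ C * Real.log Y := by
  obtain ⟨C, hC0, hC⟩ := Pool.Agent.Work.MP_b0c12c_nt_helper41.mertens2
  refine ⟨Real.exp (1 / 2 + C / Real.log 2 - Real.log (Real.log 2) + 2), Real.exp_pos _,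
    fun Y N hY => ?_⟩
  have h1 := sum_inv_le_exp ((Ioc 1 Y).filter Nat.Prime) (SS Y N)
    (fun p hp => (mem_filter.1 hp).2) (fun m hm => by
      rw [mem_SS] at hm
      refine ⟨by omega, fun p hp hpm => ?_⟩
      rw [mem_filter, mem_Ioc]
      exact ⟨⟨hp.one_lt, hm.2 p hp hpm⟩, hp⟩)
  refine h1.trans ?_
  have h2 : ∑ p ∈ (Ioc 1 Y).filter Nat.Prime, 1 / (p : ℝ) =
      1 / 2 + ∑ p ∈ (Ioc 2 Y).filter Nat.Prime, 1 / (p : ℝ) := by
    have h3 : (Ioc 1 Y).filter Nat.Prime = insert 2 ((Ioc 2 Y).filter Nat.Prime) := by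
      ext p
      simp only [mem_filter, mem_Ioc, mem_insert]
      constructor
      · rintro ⟨⟨h4, h5⟩, h6⟩
        rcases (show 2 ≤ p from h4).eq_or_lt with h7 | h7
        · left; omega
        · right; exact ⟨⟨h7, h5⟩, h6⟩
      · rintro (h4 | ⟨⟨h4, h5⟩, h6⟩)
        · subst h4
          exact ⟨⟨by omega, hY⟩, Nat.prime_two⟩
        · exact ⟨⟨by omega, h5⟩, h6⟩
    rw [h3, sum_insert (by simp)]
    norm_num
  have h4 := (abs_le.1 (hC 2 Y le_rfl hY)).2
  push_cast at h4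
  have hlY : 0 < Real.log Y := Real.log_pos (by exact_mod_cast (by omega : 1 < Y))
  have h5 : ∑ p ∈ (Ioc 1 Y).filter Nat.Prime, 1 / (p : ℝ) + 2 ≤
      (1 / 2 + C / Real.log 2 - Real.log (Real.log 2) + 2) + Real.log (Real.log Y) := by
    rw [h2]
    linarith
  refine (Real.exp_le_exp.2 h5).trans (le_of_eq ?_)
  rw [Real.exp_add, Real.exp_log hlY]

/-- **FEW** -/
theorem few : Stmt_Few := by
  classical
  intro η hη0 hη1
  obtain ⟨C, hC0, hC⟩ := sum_SS_le
  refine ⟨14 + 10 * C, min η (1 - η), lt_min hη0 (by linarith), ?_⟩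
  set δ := min η (1 - η) with hδ
  have hδη : δ ≤ η := min_le_left _ _
  have hδη' : δ ≤ 1 - η := min_le_right _ _
  have hδ0 : 0 < δ := lt_min hη0 (by linarith)
  intro N hN
  have hN0 : (0 : ℝ) < N := by exact_mod_cast (by omega : 0 < N)
  have hL : 0 < Real.log N := Real.log_pos (by exact_mod_cast (by omega : 1 < N))
  set B := {c : ℕ | 1 ≤ c ∧ c ≤ N ∧ ∀ r₁ r₂ : ℕ, r₁.Prime → r₂.Prime →
      Real.exp (Real.log N ^ (1 - η)) < r₁ → r₁ < r₂ → ¬ r₁ * r₂ ∣ c} with hB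
  rcases Nat.lt_or_ge N 3 with hN3 | hN3
  · -- `N = 2`
    have h1 : B.ncard ≤ N := by
      have h2 : B ⊆ ((Icc 1 N : Finset ℕ) : Set ℕ) := by
        intro c hc
        rw [coe_Icc, Set.mem_Icc]
        exact ⟨hc.1, hc.2.1⟩
      refine (Set.ncard_le_ncard h2 (Finset.finite_toSet _)).trans ?_
      rw [Set.ncard_coe_finset, Nat.card_Icc]
      omega
    have h3 : (B.ncard : ℝ) ≤ N := by exact_mod_cast h1
    refine h3.trans ?_
    have hN2 : N = 2 := by omega
    have h4 : Real.log N ^ δ ≤ 1 := by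
      apply Real.rpow_le_one hL.le _ hδ0.le
      rw [hN2]
      have := Real.log_two_lt_d9
      push_cast
      linarith
    rw [le_div_iff₀ (Real.rpow_pos_of_pos hL _)]
    have h5 : (N : ℝ) * Real.log N ^ δ ≤ N * 1 := mul_le_mul_of_nonneg_left h4 hN0.le
    nlinarith
  -- `N ≥ 3`
  set L := Real.log N with hLdef
  have hL1 : 1 ≤ L := by
    rw [hLdef, Real.le_log_iff_exp_le hN0]
    have h1 := Real.exp_one_lt_d9
    have h2 : (3 : ℝ) ≤ N := by exact_mod_cast hN3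
    linarith
  set M := L ^ (1 - η) with hM
  have hM1 : 1 ≤ M := Real.one_le_rpow hL1 (by linarith)
  set Y := ⌊Real.exp M⌋₊ with hY
  have hexp : 2 ≤ Real.exp M := by
    have h1 := Real.add_one_le_exp M
    linarith
  have hY2 : 2 ≤ Y := by
    rw [hY]
    exact Nat.le_floor (by exact_mod_cast hexp)
  have hY0 : (0 : ℝ) < Y := by exact_mod_cast (by omega : 0 < Y)
  have hYle : (Y : ℝ) ≤ Real.exp M := Nat.floor_le (Real.exp_pos M).le
  have hlogY : Real.log Y ≤ M := by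
    rw [Real.log_le_iff_le_exp hY0]
    exact hYle
  have hYge : M ≤ Y := by
    have h1 := Real.add_one_le_exp M
    have h2 := Nat.lt_floor_add_one (Real.exp M)
    rw [← hY] at h2
    linarith
  have hlt : ∀ r : ℕ, Y < r → Real.exp M < r := fun r hr => (Nat.floor_lt (Real.exp_pos M).le).1 hr
  set E1 := (Icc 1 N).filter (fun c => L / 2 ≤ ls Y c) with hE1
  set E2 := Icc 1 N.sqrt with hE2
  set E3 := ((Ioc Y N).filter Nat.Prime).biUnion
      (fun r => (Icc 1 N).filter (fun c => r ^ 2 ∣ c)) with hE3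
  set E4 := ((SS Y N).sigma (fun s => (Icc 1 (N / s)).filter Nat.Prime)).image
      (fun x => x.1 * x.2) with hE4
  have hsub : B ⊆ ((E1 ∪ (E2 ∪ (E3 ∪ E4)) : Finset ℕ) : Set ℕ) := by
    intro c hc
    obtain ⟨hc1, hcN, hcr⟩ := hc
    rw [mem_coe, mem_union, mem_union, mem_union]
    rcases cover (Y := Y) hc1 hcN (fun r₁ r₂ h1 h2 h3 h4 => hcr r₁ r₂ h1 h2 (hlt r₁ h3) h4) with
      h | h | ⟨r, hr, hYr, hrc⟩ | ⟨s, r, h1, h2, h3, h4, h5⟩
    · left
      rw [hE1, mem_filter, mem_Icc]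
      exact ⟨⟨hc1, hcN⟩, h⟩
    · right; left
      rw [hE2, mem_Icc, Nat.le_sqrt']
      exact ⟨hc1, h⟩
    · right; right; left
      rw [hE3, mem_biUnion]
      refine ⟨r, ?_, ?_⟩
      · rw [mem_filter, mem_Ioc]
        refine ⟨⟨hYr, ?_⟩, hr⟩
        exact (Nat.le_of_dvd (by omega) (dvd_trans (dvd_pow_self r two_ne_zero) hrc)).trans hcN
      · rw [mem_filter, mem_Icc]
        exact ⟨⟨hc1, hcN⟩, hrc⟩
    · right; right; right
      rw [hE4, mem_image]
      refine ⟨⟨s, r⟩, ?_, h1.symm⟩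
      rw [mem_sigma, mem_SS, mem_filter, mem_Icc]
      refine ⟨⟨⟨h3, h4⟩, h5⟩, ⟨h2.pos, ?_⟩, h2⟩
      simp only
      rw [Nat.le_div_iff_mul_le (by omega), mul_comm, ← h1]
      exact hcN
  have hcard : (B.ncard : ℝ) ≤ (E1.card : ℝ) + (E2.card + (E3.card + E4.card)) := by
    have h1 := Set.ncard_le_ncard hsub (Finset.finite_toSet _)
    rw [Set.ncard_coe_finset] at h1
    have h2 := (Finset.card_union_le E1 (E2 ∪ (E3 ∪ E4)))
    have h3 := (Finset.card_union_le E2 (E3 ∪ E4))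
    have h4 := (Finset.card_union_le E3 E4)
    exact_mod_cast (by omega : B.ncard ≤ E1.card + (E2.card + (E3.card + E4.card)))
  have hLδ : 0 < L ^ δ := Real.rpow_pos_of_pos hL _
  -- `M / L ≤ L ^ (- δ)`
  have hML : M / L ≤ 1 / L ^ δ := by
    rw [div_le_div_iff₀ hL hLδ, one_mul, hM, ← Real.rpow_add hL]
    have : L ^ (1 - η + δ) ≤ L ^ (1 : ℝ) := Real.rpow_le_rpow_of_exponent_le hL1 (by linarith)
    rwa [Real.rpow_one] at this
  have h1L : 1 / L ≤ 1 / L ^ δ := by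
    apply one_div_le_one_div_of_le hLδ
    have : L ^ δ ≤ L ^ (1 : ℝ) := Real.rpow_le_rpow_of_exponent_le hL1 (by linarith)
    rwa [Real.rpow_one] at this
  have hM' : 1 / M ≤ 1 / L ^ δ := by
    apply one_div_le_one_div_of_le hLδ
    exact Real.rpow_le_rpow_of_exponent_le hL1 hδη'
  have b1 : (E1.card : ℝ) ≤ 10 * N * (1 / L ^ δ) := by
    refine (card_ls_le Y N (by omega) (t := L / 2) (by positivity)).trans ?_
    have h1 : 2 * (N : ℝ) * (Real.log Y + 1.4) / (L / 2) = 4 * N * ((Real.log Y + 1.4) / L) := by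
      field_simp
      norm_num
    rw [h1]
    have h2 : (Real.log Y + 1.4) / L ≤ 2.4 * (M / L) := by
      rw [← mul_div_assoc]
      apply div_le_div_of_nonneg_right _ hL.le
      linarith
    have h3 : (Real.log Y + 1.4) / L ≤ 2.5 * (1 / L ^ δ) := by
      have : 0 ≤ 1 / L ^ δ := by positivity
      linarith
    calc 4 * (N : ℝ) * ((Real.log Y + 1.4) / L) ≤ 4 * N * (2.5 * (1 / L ^ δ)) :=
          mul_le_mul_of_nonneg_left h3 (by positivity)
      _ = _ := by ring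
  have b2 : (E2.card : ℝ) ≤ 2 * N * (1 / L ^ δ) := by
    rw [hE2, Nat.card_Icc, Nat.add_sub_cancel]
    have h1 : (N.sqrt : ℝ) ≤ Real.sqrt N := Real.nat_sqrt_le_real_sqrt
    have hs : 0 < Real.sqrt N := Real.sqrt_pos.2 hN0
    have h3 : L ≤ 2 * Real.sqrt N := by
      have h4 : Real.log (Real.sqrt N) ≤ Real.sqrt N := Real.log_le_self hs.le
      rw [Real.log_sqrt hN0.le] at h4
      rw [hLdef]
      linarith
    have h4 : Real.sqrt N ≤ 2 * N * (1 / L) := by
      rw [mul_one_div, le_div_iff₀ hL]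
      have h5 : Real.sqrt N * Real.sqrt N = N := Real.mul_self_sqrt hN0.le
      nlinarith
    refine (h1.trans h4).trans ?_
    exact mul_le_mul_of_nonneg_left h1L (by positivity)
  have b3 : (E3.card : ℝ) ≤ 1 * N * (1 / L ^ δ) := by
    refine (card_sq_le Y N (by omega)).trans ?_
    rw [one_mul, div_eq_mul_one_div]
    apply mul_le_mul_of_nonneg_left _ hN0.le
    refine le_trans ?_ hM'
    exact one_div_le_one_div_of_le (by linarith) hYge
  have b4 : (E4.card : ℝ) ≤ 10 * C * N * (1 / L ^ δ) := by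
    refine (card_SS_le Y N hN3).trans ?_
    have h1 : ∑ s ∈ SS Y N, 1 / (s : ℝ) ≤ C * M :=
      (hC Y N hY2).trans (mul_le_mul_of_nonneg_left hlogY hC0.le)
    calc 10 * (N : ℝ) / L * ∑ s ∈ SS Y N, 1 / (s : ℝ) ≤ 10 * N / L * (C * M) :=
          mul_le_mul_of_nonneg_left h1 (by positivity)
      _ = 10 * C * N * (M / L) := by ring
      _ ≤ _ := mul_le_mul_of_nonneg_left hML (by positivity)
  have hfin : (14 + 10 * C) * (N : ℝ) / L ^ δ = 10 * N * (1 / L ^ δ) + (2 * N * (1 / L ^ δ) +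
      (1 * N * (1 / L ^ δ) + 10 * C * N * (1 / L ^ δ))) + N * (1 / L ^ δ) := by
    ring
  rw [hfin]
  have : 0 ≤ (N : ℝ) * (1 / L ^ δ) := by positivity
  linarith

end Pool.Agent.Work.MP_2738db_nt_ZZ.helper66
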